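import Pool.Agent.Helper122LS.Core

/-!
# A quadratic and minimum-degree gain in the Laplacian spread inequality for simple graphs
-/

set_option autoImplicit false

open Finset Matrix

namespace Pool.Agent.Results.MP_3a2c26_co.SimpleGraphsQuadraticGain

/-- Let `G` be a simple graph on `n` vertices, `mu < 1` an eigenvalue of the Laplacian of `G` and
`nu < 1` one of the Laplacian of the complement, both with an eigenvector orthogonal to the
all-ones vector (for instance `mu = lambda_2 (G)` and `nu = lambda_2 (G^c)`). Then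
`mu + nu ≥ 1 + (mu ^ 2 + nu ^ 2 + a mu + b nu) / n`, where `a = max (minimum degree of G^c - 1) 0`
and `b = max (minimum degree of G - 1) 0`. -/
theorem result {V : Type*} [Fintype V] [DecidableEq V] (G : SimpleGraph V) [DecidableRel G.Adj]
    (mu nu : ℝ) (y x : V → ℝ)
    (hy0 : y ≠ 0) (hys : ∑ i, y i = 0) (hy : G.lapMatrix ℝ *ᵥ y = mu • y)
    (hx0 : x ≠ 0) (hxs : ∑ i, x i = 0) (hx : Gᶜ.lapMatrix ℝ *ᵥ x = nu • x)
    (hmu : mu < 1) (hnu : nu < 1) :
    1 + (mu ^ 2 + nu ^ 2 + ((Gᶜ.minDegree - 1 : ℕ) : ℝ) * mu + ((G.minDegree - 1 : ℕ) : ℝ) * nu) /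
      (Fintype.card V : ℝ) ≤ mu + nu := by
  have key : ∀ (H : SimpleGraph V) [DecidableRel H.Adj] (z : V → ℝ) (l : ℝ),
      H.lapMatrix ℝ *ᵥ z = l • z → ∀ i, ∑ j ∈ H.neighborFinset i, (z i - z j) = l * z i := by
    intro H _ z l h i
    have h1 := congrFun h i
    rw [SimpleGraph.lapMatrix_mulVec_apply] at h1
    rw [sum_sub_distrib, sum_const, SimpleGraph.card_neighborFinset_eq_degree, nsmul_eq_mul, h1]
    rfl
  have hdeg : ∀ (H : SimpleGraph V) [DecidableRel H.Adj] (i : V), (H.neighborFinset i).Nonempty →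
      ((H.minDegree - 1 : ℕ) : ℝ) + 1 ≤ ((H.neighborFinset i).card : ℝ) := by
    intro H _ i hi
    have h1 : H.minDegree ≤ (H.neighborFinset i).card := by
      rw [SimpleGraph.card_neighborFinset_eq_degree]
      exact H.minDegree_le_degree i
    have h2 := card_pos.2 hi
    have h3 : (H.minDegree - 1) + 1 ≤ (H.neighborFinset i).card := by omega
    exact_mod_cast h3
  have h := Helper122LS.core2 (fun i => Gᶜ.neighborFinset i) (fun i => G.neighborFinset i)
    (fun i j hj => by
      rw [SimpleGraph.mem_neighborFinset] at hj ⊢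
      exact hj.symm)
    (fun i j hj => by
      rw [SimpleGraph.mem_neighborFinset] at hj ⊢
      exact hj.symm)
    (fun i j hij => by
      rw [SimpleGraph.mem_neighborFinset, SimpleGraph.mem_neighborFinset, SimpleGraph.compl_adj]
      by_cases h : G.Adj i j
      · exact Or.inr h
      · exact Or.inl ⟨hij.symm, h⟩)
    (fun i => by
      rw [disjoint_left]
      intro j h1 h2
      rw [SimpleGraph.mem_neighborFinset] at h1 h2
      rw [SimpleGraph.compl_adj] at h1
      exact h1.2 h2)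
    (fun i h => by
      rw [SimpleGraph.mem_neighborFinset] at h
      exact Gᶜ.loopless.irrefl i h)
    (fun i h => by
      rw [SimpleGraph.mem_neighborFinset] at h
      exact G.loopless.irrefl i h)
    x y nu mu (((G.minDegree - 1 : ℕ) : ℝ) + 1) (((Gᶜ.minDegree - 1 : ℕ) : ℝ) + 1) hnu hmu
    (hdeg G) (hdeg Gᶜ) (key Gᶜ x nu hx) (key G y mu hy) hx0 hy0 hxs hys
  have hn : (0 : ℝ) < (Fintype.card V : ℝ) := by
    obtain ⟨i, _⟩ := Function.ne_iff.1 hx0
    exact_mod_cast Fintype.card_pos_iff.2 ⟨i⟩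
  have h2 : (mu ^ 2 + nu ^ 2 + ((Gᶜ.minDegree - 1 : ℕ) : ℝ) * mu +
      ((G.minDegree - 1 : ℕ) : ℝ) * nu) / (Fintype.card V : ℝ) ≤ mu + nu - 1 := by
    rw [div_le_iff₀ hn]
    linarith
  linarith

end Pool.Agent.Results.MP_3a2c26_co.SimpleGraphsQuadraticGain
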