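import Pool.Agent.Helper122LS.Equality

/-!
# The equality case of the Laplacian spread inequality for weighted graphs
-/

set_option autoImplicit false

open Finset

namespace Pool.Agent.Results.MP_3a2c26_co.WeightedEqualityCase

/-- Let `w` be symmetric weights in `[0, 1]` on `n ≥ 2` vertices and let `x`, `y` be nonzero vectors
of sum zero. If the Laplacian Rayleigh quotient of `x` for `w` plus the one of `y` for the
complement `1 - w` is at most `1`, then one of them is `0` and the other one is `1`. -/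
theorem result (n : ℕ) (hn : 2 ≤ n) (w : Fin n → Fin n → ℝ) (_hsym : ∀ i j, w i j = w j i)
    (hw : ∀ i j, 0 ≤ w i j ∧ w i j ≤ 1) (x y : Fin n → ℝ)
    (hxs : ∑ i, x i = 0) (hys : ∑ i, y i = 0) (hx0 : x ≠ 0) (hy0 : y ≠ 0)
    (hle : (∑ i, ∑ j, w i j * (x i - x j) ^ 2) / (2 * ∑ i, x i ^ 2)
      + (∑ i, ∑ j, (1 - w i j) * (y i - y j) ^ 2) / (2 * ∑ i, y i ^ 2) ≤ 1) :
    ((∑ i, ∑ j, w i j * (x i - x j) ^ 2) / (2 * ∑ i, x i ^ 2) = 0 ∧
      (∑ i, ∑ j, (1 - w i j) * (y i - y j) ^ 2) / (2 * ∑ i, y i ^ 2) = 1) ∨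
    ((∑ i, ∑ j, w i j * (x i - x j) ^ 2) / (2 * ∑ i, x i ^ 2) = 1 ∧
      (∑ i, ∑ j, (1 - w i j) * (y i - y j) ^ 2) / (2 * ∑ i, y i ^ 2) = 0) :=
  Helper122LS.equality_case hn w hw x y hxs hys hx0 hy0 hle

end Pool.Agent.Results.MP_3a2c26_co.WeightedEqualityCase
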